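import Pool.Agent.Y320.ST.Stm

/-!
# Project ST, job ST-AFF: entire weakly quasisymmetric homeomorphisms are affine
-/

set_option autoImplicit false
open Filter Topology MeasureTheory Metric Polynomial

namespace Pool.Agent.Y941.ST
open Pool.Agent.Y320.CM Pool.Agent.Y320.ST

/-- growth -/
lemma growth (H : ℝ) (u : ℂ ≃ₜ ℂ) (hW : WQS H u) (hH : 1 ≤ H) :
    ∀ (k : ℕ) (z : ℂ), ‖z‖ ≤ 3 ^ k → ‖u z - u 0‖ ≤ H ^ (k + 1) * ‖u 1 - u 0‖ := by
  intro k
  induction k with
  | zero =>
    intro z hz
    have h := hW 0 z 1 (by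
      rw [dist_zero_left, dist_zero_left]
      simp at hz ⊢
      linarith)
    rw [dist_comm, dist_comm (u 0), dist_eq_norm, dist_eq_norm] at h
    simpa using h
  | succ k ih =>
    intro z hz
    have h := hW 0 z ((3 : ℂ) ^ k) (by
      rw [dist_zero_left, dist_zero_left, norm_pow]
      simp
      rw [pow_succ] at hz
      linarith)
    rw [dist_comm, dist_comm (u 0), dist_eq_norm, dist_eq_norm] at h
    have h2 := ih ((3 : ℂ) ^ k) (by rw [norm_pow]; simp)
    calc ‖u z - u 0‖ ≤ H * ‖u ((3 : ℂ) ^ k) - u 0‖ := h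
      _ ≤ H * (H ^ (k + 1) * ‖u 1 - u 0‖) := by gcongr
      _ = H ^ (k + 1 + 1) * ‖u 1 - u 0‖ := by ring

/-- an injective polynomial is a power up to a translation -/
lemma poly_pow (p : ℂ[X]) (hp : Function.Injective (fun z => p.eval z)) (hd : 0 < p.natDegree)
    (r : ℂ) : p - C (p.eval r) = C p.leadingCoeff * (X - C r) ^ p.natDegree := by
  set q := p - C (p.eval r) with hq
  have hqd : q.natDegree = p.natDegree := natDegree_sub_C
  have hql : q.leadingCoeff = p.leadingCoeff := by
    rw [leadingCoeff, leadingCoeff, hqd, hq, coeff_sub, coeff_C, if_neg hd.ne', sub_zero]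
  have hs : q.Splits := IsAlgClosed.splits q
  have hq0 : q ≠ 0 := by
    intro h
    rw [h] at hqd
    simp at hqd
    omega
  have hr : q.roots = Multiset.replicate p.natDegree r := by
    rw [Multiset.eq_replicate]
    refine ⟨?_, ?_⟩
    · rw [← hqd]
      exact hs.natDegree_eq_card_roots.symm
    · intro s hs'
      have h1 := (mem_roots hq0).1 hs'
      rw [IsRoot.def, hq, eval_sub, eval_C, sub_eq_zero] at h1
      exact hp h1
  have h2 := hs.eq_prod_roots
  rw [hr, hql] at h2
  rw [h2]
  simp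

lemma poly_inj (p : ℂ[X]) (hp : Function.Injective (fun z => p.eval z)) : p.natDegree = 1 := by
  have hd : 0 < p.natDegree := by
    rcases Nat.eq_zero_or_pos p.natDegree with h | h
    · exfalso
      rw [eq_C_of_natDegree_eq_zero h] at hp
      exact zero_ne_one (hp (show _ = _ by simp) : (0 : ℂ) = 1)
    · exact h
  by_contra hne
  have h2 : 2 ≤ p.natDegree := by omega
  have h0 := poly_pow p hp hd 0
  have h1 := poly_pow p hp hd 1
  have e0 := congrArg (fun q => (derivative q).eval 0) h0
  have e1 := congrArg (fun q => (derivative q).eval 0) h1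
  simp [derivative_pow] at e0 e1
  rw [e0] at e1
  have hlc : p.leadingCoeff ≠ 0 := by
    intro h
    rw [leadingCoeff_eq_zero] at h
    rw [h] at hd
    simp at hd
  rw [zero_pow (by omega), mul_zero, mul_zero] at e1
  have hc : (p.natDegree : ℂ) ≠ 0 := by exact_mod_cast hd.ne'
  exact mul_ne_zero hlc (mul_ne_zero hc (pow_ne_zero _ (by norm_num))) e1.symm

theorem aff : S_AFF := by
  intro H u hW hu
  have hinj : Function.Injective u := u.injective
  have hne : 0 < ‖u 1 - u 0‖ := by
    rw [norm_pos_iff, sub_ne_zero]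
    exact fun h => one_ne_zero (hinj h)
  have hH : 1 ≤ H := by
    have h := hW 0 1 1 (by
      rw [dist_zero_left]
      simp)
    rw [dist_comm, dist_eq_norm] at h
    by_contra hlt
    push Not at hlt
    nlinarith
  have hgr := growth H u hW hH
  -- vanishing of the Taylor coefficients
  set f : ℂ → ℂ := fun z => u z - u 0 with hf
  have hfd : Differentiable ℂ f := hu.sub_const _
  have hvan : ∀ n : ℕ, H < 3 ^ n → iteratedDeriv n f 0 = 0 := by
    intro n hn
    have hb : ∀ k : ℕ, ‖iteratedDeriv n f 0‖ ≤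
        (n.factorial * (H * ‖u 1 - u 0‖)) * (H / 3 ^ n) ^ k := by
      intro k
      have h := Complex.norm_iteratedDeriv_le_of_forall_mem_sphere_norm_le (c := 0)
        (R := 3 ^ k) (C := H ^ (k + 1) * ‖u 1 - u 0‖) (f := f) n (by positivity)
        hfd.diffContOnCl (fun z hz => hgr k z (by
          rw [mem_sphere_zero_iff_norm] at hz
          exact hz.le))
      refine h.trans (le_of_eq ?_)
      rw [div_pow, ← pow_mul, ← pow_mul, mul_comm n k, pow_succ]
      ring
    have ht : Tendsto (fun k : ℕ => (n.factorial * (H * ‖u 1 - u 0‖)) * (H / 3 ^ n) ^ k)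
        atTop (𝓝 ((n.factorial * (H * ‖u 1 - u 0‖)) * 0)) :=
      (tendsto_pow_atTop_nhds_zero_of_lt_one (by positivity)
        ((div_lt_one (by positivity)).2 hn)).const_mul _
    rw [mul_zero] at ht
    have := ge_of_tendsto' ht hb
    exact norm_le_zero_iff.1 this
  obtain ⟨N, hN⟩ := pow_unbounded_of_one_lt H (show (1 : ℝ) < 3 by norm_num)
  set p : ℂ[X] := C (u 0) + ∑ n ∈ Finset.range N, C ((n.factorial : ℂ)⁻¹ * iteratedDeriv n f 0) * X ^ n
    with hp
  have hev : ∀ z, p.eval z = u z := by
    intro z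
    have h1 := Complex.hasSum_taylorSeries_of_entire hfd 0 z
    have h2 : HasSum (fun n : ℕ => (n.factorial : ℂ)⁻¹ • (z - 0) ^ n • iteratedDeriv n f 0)
        (∑ n ∈ Finset.range N, (n.factorial : ℂ)⁻¹ • (z - 0) ^ n • iteratedDeriv n f 0) := by
      apply hasSum_sum_of_ne_finset_zero
      intro n hn
      rw [Finset.mem_range, not_lt] at hn
      rw [hvan n (hN.trans_le (pow_le_pow_right₀ (by norm_num) hn)), smul_zero, smul_zero]
    have h3 := h1.unique h2
    have h4 : u z = u 0 + f z := by simp [hf]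
    rw [h4, h3, hp, eval_add, eval_C, eval_finsetSum]
    congr 1
    apply Finset.sum_congr rfl
    intro n _
    simp only [eval_mul, eval_C, eval_pow, eval_X, smul_eq_mul, sub_zero]
    ring
  have hpi : Function.Injective (fun z => p.eval z) := by
    intro x y hxy
    simp only [hev] at hxy
    exact hinj hxy
  have hdeg := poly_inj p hpi
  obtain ⟨a, b, ha, hpab⟩ : ∃ a b : ℂ, a ≠ 0 ∧ p = C a * X + C b := by
    rw [natDegree_eq_one] at hdeg
    obtain ⟨a, ha, b, h⟩ := hdeg
    exact ⟨a, b, ha, h.symm⟩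
  refine ⟨a, b, ha, fun z => ?_⟩
  rw [← hev z, hpab]
  simp

end Pool.Agent.Y941.ST
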